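import Mathlib
import Pool.Agent.R260.LrA

set_option autoImplicit false

/-! Classes of complex numbers modulo the algebraic closure of `ℚ(π)`, and the classes of the
values of the Gamma function at rational numbers: periodicity, reflection and distribution. -/

namespace Run7.h372.LR

open scoped IntermediateField TensorProduct

noncomputable section

/-- the field `ℚ(π)` -/
def K : IntermediateField ℚ ℂ := ℚ⟮(Real.pi : ℂ)⟯

/-- the elements of `ℂ` that are algebraic over `ℚ(π)` -/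
def E : IntermediateField K ℂ := algebraicClosure K ℂ

theorem mem_E {x : ℂ} : x ∈ E ↔ IsAlgebraic K x := mem_algebraicClosure_iff

theorem mem_E_of_isAlgebraic {x : ℂ} (h : IsAlgebraic ℚ x) : x ∈ E :=
  mem_E.2 (h.tower_top K)

theorem pi_mem_E : (Real.pi : ℂ) ∈ E := by
  have h : (Real.pi : ℂ) ∈ K := IntermediateField.mem_adjoin_simple_self ℚ _
  exact E.algebraMap_mem ⟨_, h⟩

theorem mem_E_of_pow {x : ℂ} {n : ℕ} (hn : 0 < n) (h : x ^ n ∈ E) : x ∈ E := by
  rw [mem_E] at h ⊢
  exact h.of_pow hn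

/-- the subgroup of the units in `E` -/
def EU : Subgroup ℂˣ where
  carrier := {u | (u : ℂ) ∈ E}
  one_mem' := by simpa using E.one_mem
  mul_mem' := fun ha hb => by
    simp only [Set.mem_setOf_eq, Units.val_mul] at *
    exact E.mul_mem ha hb
  inv_mem' := fun ha => by
    simp only [Set.mem_setOf_eq, Units.val_inv_eq_inv_val] at *
    exact E.inv_mem ha

/-- the group of classes, written additively -/
def A : Type := Additive (ℂˣ ⧸ EU)

instance : AddCommGroup A := inferInstanceAs (AddCommGroup (Additive (ℂˣ ⧸ EU)))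

/-- the class of a unit in `A` -/
def c0 (u : ℂˣ) : A := Additive.ofMul (QuotientGroup.mk u : ℂˣ ⧸ EU)

theorem c0_mul (u v : ℂˣ) : c0 (u * v) = c0 u + c0 v := rfl

theorem c0_eq_zero {u : ℂˣ} : c0 u = 0 ↔ (u : ℂ) ∈ E :=
  QuotientGroup.eq_one_iff u

/-- the class as a homomorphism -/
def c0Hom : Additive ℂˣ →+ A where
  toFun u := c0 u.toMul
  map_zero' := c0_eq_zero.2 (by simpa using E.one_mem)
  map_add' u v := c0_mul _ _

/-- the rational vector space of the classes -/
abbrev W : Type := ℚ ⊗[ℤ] A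

/-- the class of a unit -/
def cls (u : ℂˣ) : W := (1 : ℚ) ⊗ₜ[ℤ] (c0 u)

theorem cls_mul (u v : ℂˣ) : cls (u * v) = cls u + cls v := by
  unfold cls
  rw [c0_mul, TensorProduct.tmul_add]

theorem cls_eq_zero_of_mem {u : ℂˣ} (h : (u : ℂ) ∈ E) : cls u = 0 := by
  unfold cls
  rw [c0_eq_zero.2 h, TensorProduct.tmul_zero]

theorem cls_one : cls 1 = 0 := cls_eq_zero_of_mem (by simpa using E.one_mem)

theorem cls_inv (u : ℂˣ) : cls u⁻¹ = - cls u := by
  have := cls_mul u u⁻¹
  rw [mul_inv_cancel, cls_one] at this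
  exact (neg_eq_of_add_eq_zero_right this.symm).symm

theorem cls_prod {ι : Type*} (s : Finset ι) (f : ι → ℂˣ) :
    cls (∏ i ∈ s, f i) = ∑ i ∈ s, cls (f i) := by
  classical
  induction s using Finset.induction_on with
  | empty => simp [cls_one]
  | insert i s hi ih => rw [Finset.prod_insert hi, Finset.sum_insert hi, cls_mul, ih]

theorem cls_pow (u : ℂˣ) (n : ℕ) : cls (u ^ n) = n • cls u := by
  induction n with
  | zero => simp [cls_one]
  | succ n ih => rw [pow_succ, cls_mul, ih, succ_nsmul]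

theorem cls_zpow (u : ℂˣ) (n : ℤ) : cls (u ^ n) = n • cls u := by
  obtain ⟨k, rfl | rfl⟩ := n.eq_nat_or_neg
  · rw [zpow_natCast, cls_pow, natCast_zsmul]
  · rw [zpow_neg, zpow_natCast, cls_inv, cls_pow, neg_smul, natCast_zsmul]

theorem mem_of_cls_eq_zero {u : ℂˣ} (h : cls u = 0) : (u : ℂ) ∈ E := by
  have hloc : IsLocalizedModule (nonZeroDivisors ℤ) (TensorProduct.mk ℤ ℚ A 1) :=
    (isLocalizedModule_iff_isBaseChange (nonZeroDivisors ℤ) ℚ _).2
      (TensorProduct.isBaseChange ℤ A ℚ)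
  have h1 : TensorProduct.mk ℤ ℚ A 1 (c0 u) = 0 := h
  rw [IsLocalizedModule.eq_zero_iff (nonZeroDivisors ℤ)] at h1
  obtain ⟨c, hc⟩ := h1
  have hc0 : (c : ℤ) ≠ 0 := nonZeroDivisors.coe_ne_zero c
  have h2 : c0 (u ^ (c : ℤ)) = 0 := by
    have h3 : c0Hom ((c : ℤ) • Additive.ofMul u) = (c : ℤ) • c0Hom (Additive.ofMul u) :=
      map_zsmul c0Hom _ _
    have h4 : (c : ℤ) • c0Hom (Additive.ofMul u) = 0 := hc
    rw [h4] at h3
    exact h3
  have h4 : ((u ^ (c : ℤ) : ℂˣ) : ℂ) ∈ E := c0_eq_zero.1 h2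
  have h5 : (u : ℂ) ^ (c : ℤ).natAbs ∈ E := by
    rw [Units.val_zpow_eq_zpow_val] at h4
    rcases Int.natAbs_eq (c : ℤ) with h6 | h6
    · rw [h6, zpow_natCast] at h4; exact h4
    · rw [h6, zpow_neg, zpow_natCast] at h4
      have := E.inv_mem h4
      rwa [inv_inv] at this
  exact mem_E_of_pow (Int.natAbs_pos.2 hc0) h5

end

end Run7.h372.LR
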