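import Mathlib
import Pool.Agent.Run7.h372.LRa

set_option autoImplicit false

/-! The classes of the values of the Gamma function at rational numbers, modulo the numbers that are
algebraic over `ℚ(π)`: periodicity, reflection and distribution. -/

namespace Run7.h372.LR

noncomputable section

open Finset

/-- the unit `x`, for a positive real number `x` -/
def ru (x : ℝ) : ℂˣ := if h : 0 < x then Units.mk0 (x : ℂ) (by exact_mod_cast h.ne') else 1

theorem ru_val {x : ℝ} (h : 0 < x) : (ru x : ℂ) = (x : ℂ) := by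
  unfold ru
  rw [dif_pos h]
  rfl

theorem ru_mul {x y : ℝ} (hx : 0 < x) (hy : 0 < y) : ru (x * y) = ru x * ru y := by
  apply Units.ext
  rw [Units.val_mul, ru_val hx, ru_val hy, ru_val (mul_pos hx hy)]
  push_cast
  rfl

theorem ru_prod {ι : Type*} (s : Finset ι) (f : ι → ℝ) (h : ∀ i ∈ s, 0 < f i) :
    ru (∏ i ∈ s, f i) = ∏ i ∈ s, ru (f i) := by
  classical
  induction s using Finset.induction_on with
  | empty =>
    apply Units.ext
    simp [ru_val one_pos]
  | insert i s hi ih =>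
    rw [Finset.prod_insert hi, Finset.prod_insert hi, ru_mul (h i (mem_insert_self i s)),
      ih (fun j hj => h j (mem_insert_of_mem hj))]
    exact Finset.prod_pos fun j hj => h j (mem_insert_of_mem hj)

/-- the class of a positive real number -/
def rc (x : ℝ) : W := cls (ru x)

theorem rc_mul {x y : ℝ} (hx : 0 < x) (hy : 0 < y) : rc (x * y) = rc x + rc y := by
  unfold rc
  rw [ru_mul hx hy, cls_mul]

theorem rc_prod {ι : Type*} (s : Finset ι) (f : ι → ℝ) (h : ∀ i ∈ s, 0 < f i) :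
    rc (∏ i ∈ s, f i) = ∑ i ∈ s, rc (f i) := by
  unfold rc
  rw [ru_prod s f h, cls_prod]

theorem rc_alg {x : ℝ} (h : 0 < x) (ha : IsAlgebraic ℚ (x : ℂ)) : rc x = 0 := by
  apply cls_eq_zero_of_mem
  rw [ru_val h]
  exact mem_E_of_isAlgebraic ha

theorem rc_one : rc 1 = 0 := rc_alg one_pos (by simpa using isAlgebraic_one)

theorem rc_rat {x : ℚ} (h : 0 < x) : rc (x : ℝ) = 0 := by
  apply rc_alg (by exact_mod_cast h)
  have : ((x : ℝ) : ℂ) = algebraMap ℚ ℂ x := by simp
  rw [this]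
  exact isAlgebraic_algebraMap x

theorem rc_nat {n : ℕ} (h : 0 < n) : rc (n : ℝ) = 0 := by
  have := rc_rat (x := (n : ℚ)) (by exact_mod_cast h)
  exact_mod_cast this

theorem rc_pi : rc Real.pi = 0 := by
  apply cls_eq_zero_of_mem
  rw [ru_val Real.pi_pos]
  exact pi_mem_E

/-- rational powers of natural numbers are algebraic -/
theorem rc_rpow {m : ℕ} (hm : 0 < m) (x : ℚ) : rc ((m : ℝ) ^ (x : ℝ)) = 0 := by
  have hm' : (0 : ℝ) < m := by exact_mod_cast hm
  apply rc_alg (Real.rpow_pos_of_pos hm' _)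
  have hd : 0 < x.den := x.den_pos
  apply IsAlgebraic.of_pow hd
  have h1 : ((m : ℝ) ^ (x : ℝ)) ^ x.den = (m : ℝ) ^ x.num := by
    rw [← Real.rpow_natCast, ← Real.rpow_mul hm'.le, ← Real.rpow_intCast]
    congr 1
    have := Rat.mul_den_eq_num x
    exact_mod_cast this
  have h2 : (((m : ℝ) ^ (x : ℝ) : ℝ) : ℂ) ^ x.den = algebraMap ℚ ℂ ((m : ℚ) ^ x.num) := by
    rw [← Complex.ofReal_pow, h1]
    simp
  rw [h2]
  exact isAlgebraic_algebraMap _

/-- the class of the value of the Gamma function at a positive rational number -/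
def G (x : ℚ) : W := rc (Real.Gamma (x : ℝ))

theorem Gpos {x : ℚ} (h : 0 < x) : 0 < Real.Gamma (x : ℝ) :=
  Real.Gamma_pos_of_pos (by exact_mod_cast h)

theorem G_one : G 1 = 0 := by
  unfold G
  rw [Rat.cast_one, Real.Gamma_one, rc_one]

theorem G_reflect {x : ℚ} (h0 : 0 < x) (h1 : x < 1) : G x + G (1 - x) = 0 := by
  unfold G
  have h2 : (0 : ℚ) < 1 - x := by linarith
  rw [← rc_mul (Gpos h0) (Gpos h2)]
  have h3 : Real.Gamma (x : ℝ) * Real.Gamma ((1 - x : ℚ) : ℝ) =
      Real.pi / Real.sin (Real.pi * x) := by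
    rw [← Real.Gamma_mul_Gamma_one_sub]
    push_cast
    rfl
  have hx0 : (0 : ℝ) < x := by exact_mod_cast h0
  have hx1 : (x : ℝ) < 1 := by exact_mod_cast h1
  have hsin : 0 < Real.sin (Real.pi * x) :=
    Real.sin_pos_of_pos_of_lt_pi (by positivity) (by nlinarith [Real.pi_pos])
  have hs : rc (Real.sin (Real.pi * x)) = 0 := by
    apply rc_alg hsin
    have h4 := Complex.isAlgebraic_sin_rat_mul_pi x
    have h5 : ((Real.sin (Real.pi * x) : ℝ) : ℂ) = Complex.sin (x * Real.pi) := by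
      push_cast
      rw [mul_comm]
    rw [h5]
    exact h4.extendScalars (FaithfulSMul.algebraMap_injective ℤ ℚ)
  have h6 : rc (Real.pi / Real.sin (Real.pi * x)) + rc (Real.sin (Real.pi * x)) = rc Real.pi := by
    rw [← rc_mul (div_pos Real.pi_pos hsin) hsin, div_mul_cancel₀ _ hsin.ne']
  rw [hs, add_zero, rc_pi] at h6
  rw [h3, h6]

/-- `∏ Γ(k / m)` -/
theorem G_sum_all {m : ℕ} (hm : 0 < m) : ∑ j ∈ range m, G (((j : ℚ) + 1) / m) = 0 := by
  have hm' : (0 : ℚ) < m := by exact_mod_cast hm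
  obtain ⟨n, rfl⟩ : ∃ n, m = n + 1 := ⟨m - 1, by omega⟩
  rw [sum_range_succ]
  have e1 : ((n : ℚ) + 1) / ((n + 1 : ℕ) : ℚ) = 1 := by
    push_cast
    exact div_self (by positivity)
  rw [e1, G_one, add_zero]
  have h1 : ∑ j ∈ range n, G (((j : ℚ) + 1) / ((n + 1 : ℕ) : ℚ)) =
      ∑ j ∈ range n, G (1 - ((j : ℚ) + 1) / ((n + 1 : ℕ) : ℚ)) := by
    rw [← sum_range_reflect]
    refine sum_congr rfl fun j hj => ?_
    congr 1
    have hj' : j < n := mem_range.1 hj
    have : ((n - 1 - j : ℕ) : ℚ) = (n : ℚ) - 1 - j := by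
      rw [Nat.cast_sub (by omega), Nat.cast_sub (by omega)]
      simp
    rw [this]
    push_cast
    have h2 : ((n : ℚ) + 1) ≠ 0 := by positivity
    field_simp
    ring
  have h2 : ∑ j ∈ range n, G (((j : ℚ) + 1) / ((n + 1 : ℕ) : ℚ)) +
      ∑ j ∈ range n, G (1 - ((j : ℚ) + 1) / ((n + 1 : ℕ) : ℚ)) = 0 := by
    rw [← sum_add_distrib]
    apply sum_eq_zero
    intro j hj
    have hj' : j < n := mem_range.1 hj
    apply G_reflect
    · positivity
    · rw [div_lt_one (by positivity)]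
      push_cast
      have : (j : ℚ) < n := by exact_mod_cast hj'
      linarith
  rw [← h1] at h2
  have h3 : (2 : ℚ) • (∑ j ∈ range n, G (((j : ℚ) + 1) / ((n + 1 : ℕ) : ℚ))) = 0 := by
    rw [two_smul]
    exact h2
  exact (smul_eq_zero.1 h3).resolve_left (by norm_num)

/-- the distribution relation -/
theorem G_dist {m : ℕ} (hm : 0 < m) {x : ℚ} (hx : 0 < x) :
    ∑ j ∈ range m, G ((x + j) / m) = G x := by
  have hm' : (0 : ℝ) < m := by exact_mod_cast hm
  have hmq : (0 : ℚ) < m := by exact_mod_cast hm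
  obtain ⟨C, hC, hg⟩ := Pool.Agent.R260.Lr.gauss m hm
  have key : ∀ y : ℚ, 0 < y → G y = rc C + ∑ j ∈ range m, G ((y + j) / m) := by
    intro y hy
    have hy' : (0 : ℝ) < y := by exact_mod_cast hy
    have hpos : ∀ j ∈ range m, 0 < Real.Gamma (((y : ℝ) + j) / m) := fun j _ =>
      Real.Gamma_pos_of_pos (by positivity)
    unfold G
    rw [hg y hy', rc_mul (by positivity) (prod_pos hpos), rc_mul hC (Real.rpow_pos_of_pos hm' _),
      rc_rpow hm, add_zero, rc_prod _ _ hpos]
    congr 1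
    refine sum_congr rfl fun j _ => ?_
    push_cast
    rfl
  have h1 := key 1 one_pos
  have h2 : ∑ j ∈ range m, G ((1 + (j : ℚ)) / m) = 0 := by
    rw [← G_sum_all hm]
    refine sum_congr rfl fun j _ => ?_
    rw [add_comm]
  rw [G_one, h2, add_zero] at h1
  rw [key x hx, ← h1, zero_add]

end

end Run7.h372.LR
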