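import Mathlib
import Pool.Agent.Run7.h372.LRb

set_option autoImplicit false

/-! The relations between the classes of `Γ(a / q)`, `a` prime to `q`. -/

namespace Run7.h372.LR

noncomputable section

open Finset

theorem sum_class {m n b : ℕ} (hn : 0 < n) (hb : 0 < b) (hbm : b < m) :
    ∑ a ∈ (range (m * n)).filter (fun a => a % m = b), G ((a : ℚ) / (m * n : ℕ)) =
      G ((b : ℚ) / m) := by
  have hm : 0 < m := by omega
  have hmq : (0 : ℚ) < m := by exact_mod_cast hm
  have hnq : (0 : ℚ) < n := by exact_mod_cast hn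
  have hbq : (0 : ℚ) < b := by exact_mod_cast hb
  rw [← G_dist hn (x := (b : ℚ) / m) (by positivity)]
  symm
  refine sum_nbij' (fun j => b + j * m) (fun a => a / m) ?_ ?_ ?_ ?_ ?_
  · intro j hj
    have hj' : j < n := mem_range.1 hj
    rw [mem_filter, mem_range]
    refine ⟨?_, ?_⟩
    · calc b + j * m < m + j * m := by omega
        _ = (j + 1) * m := by ring
        _ ≤ n * m := Nat.mul_le_mul_right _ hj'
        _ = m * n := Nat.mul_comm _ _
    · rw [Nat.add_mul_mod_self_right, Nat.mod_eq_of_lt hbm]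
  · intro a ha
    rw [mem_filter, mem_range] at ha
    rw [mem_range]
    exact Nat.div_lt_of_lt_mul ha.1
  · intro j _
    show (b + j * m) / m = j
    rw [Nat.add_mul_div_right _ _ hm, Nat.div_eq_of_lt hbm, zero_add]
  · intro a ha
    rw [mem_filter, mem_range] at ha
    show b + a / m * m = a
    rw [← ha.2]
    have := Nat.mod_add_div a m
    rw [mul_comm]
    omega
  · intro j _
    congr 1
    push_cast
    field_simp

theorem sum_class_coprime {m l e b b' : ℕ} (hl : l.Prime) (hb : 0 < b)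
    (hbm : b < m) (hb' : 0 < b') (hbm' : b' < m) (hlm : Nat.Coprime l m) (h : (l * b') % m = b) :
    ∑ a ∈ (range (m * l ^ (e + 1))).filter (fun a => a % m = b ∧ ¬ l ∣ a),
      G ((a : ℚ) / (m * l ^ (e + 1) : ℕ)) = G ((b : ℚ) / m) - G ((b' : ℚ) / m) := by
  have hl0 : 0 < l := hl.pos
  have h1 := sum_class (m := m) (n := l ^ (e + 1)) (b := b) (by positivity) hb hbm
  have h2 := sum_class (m := m) (n := l ^ e) (b := b') (by positivity) hb' hbm'
  rw [← h1, ← h2, eq_sub_iff_add_eq]
  rw [← sum_filter_add_sum_filter_not ((range (m * l ^ (e + 1))).filter (fun a => a % m = b))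
    (fun a => ¬ l ∣ a), filter_filter]
  congr 1
  refine sum_nbij' (fun a => l * a) (fun a => a / l) ?_ ?_ ?_ ?_ ?_
  · intro a ha
    rw [mem_filter, mem_range] at ha
    rw [mem_filter, mem_filter, mem_range]
    refine ⟨⟨?_, ?_⟩, ?_⟩
    · calc l * a < l * (m * l ^ e) := Nat.mul_lt_mul_of_pos_left ha.1 hl0
        _ = m * l ^ (e + 1) := by ring
    · rw [Nat.mul_mod, ha.2]
      rw [← h, Nat.mod_mul_mod]
    · rw [not_not]
      exact dvd_mul_right _ _
  · intro a ha
    rw [mem_filter, mem_filter, mem_range, not_not] at ha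
    obtain ⟨⟨h3, h4⟩, a', rfl⟩ := ha
    rw [Nat.mul_div_cancel_left _ hl0, mem_filter, mem_range]
    refine ⟨?_, ?_⟩
    · have : l * a' < l * (m * l ^ e) := by
        calc l * a' < m * l ^ (e + 1) := h3
          _ = l * (m * l ^ e) := by ring
      exact Nat.lt_of_mul_lt_mul_left this
    · have h5 : l * a' ≡ l * b' [MOD m] := by
        unfold Nat.ModEq
        rw [h4, h]
      have h6 : a' ≡ b' [MOD m] := Nat.ModEq.cancel_left_of_coprime (by rwa [Nat.coprime_comm] at hlm) h5
      unfold Nat.ModEq at h6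
      rw [h6, Nat.mod_eq_of_lt hbm']
  · intro a _
    exact Nat.mul_div_cancel_left _ hl0
  · intro a ha
    rw [mem_filter, mem_filter, mem_range, not_not] at ha
    exact Nat.mul_div_cancel' ha.2
  · intro a _
    congr 1
    have : (l : ℚ) ≠ 0 := by exact_mod_cast hl0.ne'
    push_cast
    rw [pow_succ]
    by_cases hm : (m : ℚ) = 0
    · rw [hm]; simp
    · field_simp

/-- the class of `Γ(a / q)` for a unit `a` modulo `q` -/
def v (q : ℕ) (a : (ZMod q)ˣ) : W := G (((a : ZMod q).val : ℚ) / q)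

theorem unit_val_pos {q : ℕ} (hq : 1 < q) (a : (ZMod q)ˣ) : 0 < (a : ZMod q).val := by
  have : Fact (1 < q) := ⟨hq⟩
  rw [Nat.pos_iff_ne_zero, Ne, ZMod.val_eq_zero]
  exact a.ne_zero

theorem v_neg {q : ℕ} (hq : 1 < q) (a : (ZMod q)ˣ) : v q (-a) = - v q a := by
  have hq0 : NeZero q := ⟨by omega⟩
  have h1 := unit_val_pos hq a
  have h2 : (a : ZMod q).val < q := ZMod.val_lt _
  have hqq : (0 : ℚ) < q := by exact_mod_cast (by omega : 0 < q)
  have hne : (a : ZMod q) ≠ 0 := by
    have : Fact (1 < q) := ⟨hq⟩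
    exact a.ne_zero
  rw [eq_neg_iff_add_eq_zero, add_comm]
  unfold v
  have h3 : ((-a : (ZMod q)ˣ) : ZMod q).val = q - (a : ZMod q).val := by
    rw [Units.val_neg]
    have : NeZero (a : ZMod q) := ⟨hne⟩
    exact ZMod.val_neg_of_ne_zero _
  rw [h3]
  have h4 : (((q - (a : ZMod q).val : ℕ) : ℚ)) / q = 1 - ((a : ZMod q).val : ℚ) / q := by
    rw [Nat.cast_sub h2.le]
    field_simp
  rw [h4]
  apply G_reflect
  · have : (0 : ℚ) < (a : ZMod q).val := by exact_mod_cast h1
    positivity
  · rw [div_lt_one hqq]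
    exact_mod_cast h2

end

end Run7.h372.LR
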