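import Mathlib
import Pool.Agent.Run7.h372.LRc

set_option autoImplicit false

/-! The relations between the classes of `Γ(a / q)`, in terms of the unit groups. -/

namespace Run7.h372.LR

noncomputable section

open Finset

theorem unitsMap_eq_iff {q m : ℕ} (hm : m ∣ q) (hm0 : 0 < m) (hq0 : 0 < q) (a : (ZMod q)ˣ)
    (b : (ZMod m)ˣ) :
    ZMod.unitsMap hm a = b ↔ (a : ZMod q).val % m = (b : ZMod m).val := by
  have : NeZero m := ⟨hm0.ne'⟩
  have : NeZero q := ⟨hq0.ne'⟩
  rw [Units.ext_iff, ZMod.unitsMap_val]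
  constructor
  · intro h
    rw [← h, ZMod.cast_eq_val, ZMod.val_natCast]
  · intro h
    apply ZMod.val_injective
    rw [← h, ZMod.cast_eq_val, ZMod.val_natCast]

theorem sum_fibre {m l e : ℕ} (hm : 1 < m) (hl : l.Prime) (hlm : Nat.Coprime l m)
    (hdvd : m ∣ m * l ^ (e + 1)) [Fintype (ZMod (m * l ^ (e + 1)))ˣ] (b : (ZMod m)ˣ) :
    ∑ a : (ZMod (m * l ^ (e + 1)))ˣ with ZMod.unitsMap hdvd a = b, v (m * l ^ (e + 1)) a =
      v m b - v m ((ZMod.unitOfCoprime l hlm)⁻¹ * b) := by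
  classical
  have hl0 : 0 < l := hl.pos
  have hm0 : 0 < m := by omega
  have hq0 : 0 < m * l ^ (e + 1) := by positivity
  have : NeZero m := ⟨hm0.ne'⟩
  have : NeZero (m * l ^ (e + 1)) := ⟨hq0.ne'⟩
  have hb := unit_val_pos hm b
  have hbm : (b : ZMod m).val < m := ZMod.val_lt _
  set b' : (ZMod m)ˣ := (ZMod.unitOfCoprime l hlm)⁻¹ * b with hb'
  have hb0' := unit_val_pos hm b'
  have hbm' : (b' : ZMod m).val < m := ZMod.val_lt _
  have hbb : (l * (b' : ZMod m).val) % m = (b : ZMod m).val := by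
    have h1 : ((l : ZMod m)) * (b' : ZMod m) = b := by
      have h2 : ZMod.unitOfCoprime l hlm * b' = b := by rw [hb']; simp
      have h3 := congrArg (fun u : (ZMod m)ˣ => (u : ZMod m)) h2
      simpa using h3
    rw [← h1, ZMod.val_mul, ZMod.val_natCast, Nat.mod_mul_mod]
  have key := sum_class_coprime (m := m) (l := l) (e := e) hl hb hbm hb0' hbm' hlm hbb
  have hv1 : v m b = G (((b : ZMod m).val : ℚ) / m) := rfl
  have hv2 : v m b' = G (((b' : ZMod m).val : ℚ) / m) := rfl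
  rw [hv1, hv2, ← key]
  refine sum_bij (fun a _ => (a : ZMod (m * l ^ (e + 1))).val) ?_ ?_ ?_ ?_
  · intro a ha
    rw [mem_filter] at ha
    rw [mem_filter, mem_range]
    refine ⟨ZMod.val_lt _, (unitsMap_eq_iff hdvd hm0 hq0 a b).1 ha.2, ?_⟩
    intro hd
    have hc := ZMod.val_coe_unit_coprime a
    have h4 : Nat.Coprime (a : ZMod (m * l ^ (e + 1))).val l :=
      Nat.Coprime.coprime_dvd_right (Dvd.dvd.mul_left (dvd_pow_self l (by omega)) m) hc
    have h5 := Nat.Coprime.eq_one_of_dvd h4.symm hd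
    exact hl.one_lt.ne' h5
  · intro a _ a' _ h
    exact Units.ext (ZMod.val_injective _ h)
  · intro n hn
    rw [mem_filter, mem_range] at hn
    obtain ⟨h1, h2, h3⟩ := hn
    have hcm : Nat.Coprime n m := by
      have h4 := ZMod.val_coe_unit_coprime b
      rw [← h2] at h4
      rw [Nat.coprime_iff_gcd_eq_one] at h4 ⊢
      rw [← h4, Nat.gcd_comm n m, Nat.gcd_rec m n]
    have hcl : Nat.Coprime n (l ^ (e + 1)) :=
      Nat.Coprime.pow_right _ ((Nat.Prime.coprime_iff_not_dvd hl).2 h3).symm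
    have hc : Nat.Coprime n (m * l ^ (e + 1)) := Nat.Coprime.mul_right hcm hcl
    have hval : ((ZMod.unitOfCoprime n hc : (ZMod (m * l ^ (e + 1)))ˣ) :
        ZMod (m * l ^ (e + 1))).val = n := by
      rw [ZMod.coe_unitOfCoprime, ZMod.val_natCast, Nat.mod_eq_of_lt h1]
    refine ⟨ZMod.unitOfCoprime n hc, ?_, hval⟩
    rw [mem_filter]
    refine ⟨mem_univ _, ?_⟩
    rw [unitsMap_eq_iff hdvd hm0 hq0, hval, h2]
  · intro a _
    unfold v
    rfl

/-- the subgroup of the units modulo `q` that are congruent to a power of `l` modulo `m` -/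
def Kl {q m l : ℕ} (hdvd : m ∣ q) (hlm : Nat.Coprime l m) : Subgroup (ZMod q)ˣ :=
  (Subgroup.zpowers (ZMod.unitOfCoprime l hlm)).comap (ZMod.unitsMap hdvd)

theorem sum_Kl_mul {m l e : ℕ} (hl : l.Prime) (hlm : Nat.Coprime l m) (hm0 : 0 < m)
    (hq2 : 2 < m * l ^ (e + 1))
    (hdvd : m ∣ m * l ^ (e + 1)) [Fintype (ZMod (m * l ^ (e + 1)))ˣ]
    [DecidablePred (· ∈ Kl hdvd hlm)]
    (g : (ZMod (m * l ^ (e + 1)))ˣ) :
    ∑ k : (ZMod (m * l ^ (e + 1)))ˣ with k ∈ Kl hdvd hlm, v (m * l ^ (e + 1)) (g * k) = 0 := by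
  classical
  have hl0 : 0 < l := hl.pos
  have hq0 : 0 < m * l ^ (e + 1) := by positivity
  have : NeZero m := ⟨hm0.ne'⟩
  have : NeZero (m * l ^ (e + 1)) := ⟨hq0.ne'⟩
  rcases Nat.lt_or_ge 1 m with hm | hm
  · -- group by the fibre
    have h1 : ∑ k : (ZMod (m * l ^ (e + 1)))ˣ with k ∈ Kl hdvd hlm, v (m * l ^ (e + 1)) (g * k) =
        ∑ c : (ZMod m)ˣ with c ∈ Subgroup.zpowers (ZMod.unitOfCoprime l hlm),
          ∑ a : (ZMod (m * l ^ (e + 1)))ˣ with ZMod.unitsMap hdvd a = ZMod.unitsMap hdvd g * c,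
            v (m * l ^ (e + 1)) a := by
      rw [← sum_fiberwise_of_maps_to (s := univ.filter (fun k => k ∈ Kl hdvd hlm))
        (t := univ.filter (fun c => c ∈ Subgroup.zpowers (ZMod.unitOfCoprime l hlm)))
        (g := fun k => ZMod.unitsMap hdvd k)]
      · refine sum_congr rfl fun c hc => ?_
        rw [mem_filter] at hc
        refine sum_bij (fun k _ => g * k) ?_ ?_ ?_ ?_
        · intro k hk
          rw [mem_filter] at hk
          rw [mem_filter]
          refine ⟨mem_univ _, ?_⟩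
          rw [map_mul, hk.2]
        · intro k _ k' _ h
          exact mul_left_cancel h
        · intro a ha
          rw [mem_filter] at ha
          refine ⟨g⁻¹ * a, ?_, by simp⟩
          have h2 : ZMod.unitsMap hdvd (g⁻¹ * a) = c := by
            rw [map_mul, map_inv, ha.2, inv_mul_cancel_left]
          rw [mem_filter, mem_filter]
          refine ⟨⟨mem_univ _, ?_⟩, h2⟩
          show ZMod.unitsMap hdvd (g⁻¹ * a) ∈ Subgroup.zpowers (ZMod.unitOfCoprime l hlm)
          rw [h2]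
          exact hc.2
        · intro k _
          rfl
      · intro k hk
        rw [mem_filter] at hk
        rw [mem_filter]
        exact ⟨mem_univ _, hk.2⟩
    rw [h1]
    have h2 : ∀ c : (ZMod m)ˣ,
        ∑ a : (ZMod (m * l ^ (e + 1)))ˣ with ZMod.unitsMap hdvd a = ZMod.unitsMap hdvd g * c,
            v (m * l ^ (e + 1)) a = v m (ZMod.unitsMap hdvd g * c) -
            v m (ZMod.unitsMap hdvd g * ((ZMod.unitOfCoprime l hlm)⁻¹ * c)) := by
      intro c
      rw [sum_fibre hm hl hlm hdvd]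
      congr 2
      rw [mul_left_comm]
    rw [sum_congr rfl (fun c _ => h2 c), sum_sub_distrib, sub_eq_zero]
    symm
    refine sum_bij (fun c _ => (ZMod.unitOfCoprime l hlm)⁻¹ * c) ?_ ?_ ?_ ?_
    · intro c hc
      rw [mem_filter] at hc ⊢
      exact ⟨mem_univ _, Subgroup.mul_mem _ (Subgroup.inv_mem _ (Subgroup.mem_zpowers _)) hc.2⟩
    · intro k _ k' _ h
      exact mul_left_cancel h
    · intro c hc
      rw [mem_filter] at hc
      refine ⟨ZMod.unitOfCoprime l hlm * c, ?_, by simp⟩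
      rw [mem_filter]
      exact ⟨mem_univ _, Subgroup.mul_mem _ (Subgroup.mem_zpowers _) hc.2⟩
    · intro c _
      rfl
  · -- `m = 1`
    obtain rfl : m = 1 := by omega
    have h1 : ∀ k : (ZMod (1 * l ^ (e + 1)))ˣ, k ∈ Kl hdvd hlm := by
      intro k
      have : ZMod.unitsMap hdvd k = 1 := Subsingleton.elim _ _
      refine Subgroup.mem_comap.2 ?_
      rw [this]
      exact Subgroup.one_mem _
    rw [filter_true_of_mem (fun k _ => h1 k)]
    have h2 : ∑ k : (ZMod (1 * l ^ (e + 1)))ˣ, v (1 * l ^ (e + 1)) (g * k) =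
        ∑ k : (ZMod (1 * l ^ (e + 1)))ˣ, v (1 * l ^ (e + 1)) k :=
      Fintype.sum_equiv (Equiv.mulLeft g) _ _ (fun k => rfl)
    have h3 : ∑ k : (ZMod (1 * l ^ (e + 1)))ˣ, v (1 * l ^ (e + 1)) k =
        ∑ k : (ZMod (1 * l ^ (e + 1)))ˣ, v (1 * l ^ (e + 1)) (-k) :=
      (Fintype.sum_equiv (Equiv.neg _) _ _ (fun k => rfl)).symm
    rw [h2]
    have h4 : ∑ k : (ZMod (1 * l ^ (e + 1)))ˣ, v (1 * l ^ (e + 1)) (-k) =
        - ∑ k : (ZMod (1 * l ^ (e + 1)))ˣ, v (1 * l ^ (e + 1)) k := by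
      rw [← sum_neg_distrib]
      exact sum_congr rfl fun k _ => v_neg (by omega) k
    rw [h4] at h3
    have h5 : (2 : ℚ) • (∑ k : (ZMod (1 * l ^ (e + 1)))ˣ, v (1 * l ^ (e + 1)) k) = 0 := by
      rw [two_smul]
      exact (eq_neg_iff_add_eq_zero.1 h3)
    exact (smul_eq_zero.1 h5).resolve_left (by norm_num)

end

end Run7.h372.LR
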