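import Mathlib
import Pool.Agent.Run7.h372.LRd

set_option autoImplicit false

/-! Fourier coefficients of vector valued functions on the unit group, and a bound for the
dimension of the span. -/

namespace Run7.h372.LR

noncomputable section

open Finset
open scoped TensorProduct

section

variable {q : ℕ} [NeZero q] {V : Type*} [AddCommGroup V] [Module ℚ V]

/-- the Fourier coefficient of a vector valued function on the unit group -/
def fc (w : (ZMod q)ˣ → V) (χ : DirichletCharacter ℂ q) : ℂ ⊗[ℚ] V :=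
  ∑ g : (ZMod q)ˣ, (χ ((g⁻¹ : (ZMod q)ˣ) : ZMod q)) ⊗ₜ[ℚ] w g

theorem fc_eq_zero_of_sum (w : (ZMod q)ˣ → V) (χ : DirichletCharacter ℂ q)
    (H : Subgroup (ZMod q)ˣ) [DecidablePred (· ∈ H)] (hχ : ∀ k ∈ H, χ (k : ZMod q) = 1)
    (hw : ∀ g : (ZMod q)ˣ, ∑ k : (ZMod q)ˣ with k ∈ H, w (g * k) = 0) : fc w χ = 0 := by
  classical
  set S : Finset (ZMod q)ˣ := univ.filter (fun k => k ∈ H) with hS
  have h1 : ∀ k ∈ S, fc w χ = ∑ g : (ZMod q)ˣ,
      (χ ((g⁻¹ : (ZMod q)ˣ) : ZMod q)) ⊗ₜ[ℚ] w (g * k) := by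
    intro k hk
    have hk' : k ∈ H := by
      rw [hS, mem_filter] at hk
      exact hk.2
    unfold fc
    symm
    refine Fintype.sum_equiv (Equiv.mulRight k) _ _ fun g => ?_
    have h2 : χ (((Equiv.mulRight k g)⁻¹ : (ZMod q)ˣ) : ZMod q) =
        χ ((g⁻¹ : (ZMod q)ˣ) : ZMod q) := by
      show χ (((g * k)⁻¹ : (ZMod q)ˣ) : ZMod q) = _
      rw [mul_inv, Units.val_mul, map_mul, hχ k⁻¹ (H.inv_mem hk'), mul_one]
    rw [h2]
    rfl
  have h2 : (S.card : ℂ) • fc w χ = 0 := by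
    have h3 : ∑ k ∈ S, fc w χ = 0 := by
      rw [sum_congr rfl h1, sum_comm]
      apply sum_eq_zero
      intro g _
      rw [← TensorProduct.tmul_sum, hw g, TensorProduct.tmul_zero]
    rw [sum_const] at h3
    rw [Nat.cast_smul_eq_nsmul]
    exact h3
  have h4 : (S.card : ℂ) ≠ 0 := by
    rw [Nat.cast_ne_zero]
    apply Finset.card_ne_zero_of_mem (a := 1)
    rw [hS, mem_filter]
    exact ⟨mem_univ _, H.one_mem⟩
  exact (smul_eq_zero.1 h2).resolve_left h4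

theorem fc_eq_zero_of_even (w : (ZMod q)ˣ → V) (χ : DirichletCharacter ℂ q)
    (hw : ∀ g : (ZMod q)ˣ, w (-g) = - w g) (hχ : χ (-1) = 1) : fc w χ = 0 := by
  have h1 : fc w χ = - fc w χ := by
    conv_lhs => unfold fc
    rw [← (Fintype.sum_equiv (Equiv.neg (ZMod q)ˣ) (fun g =>
      (χ (((-g)⁻¹ : (ZMod q)ˣ) : ZMod q)) ⊗ₜ[ℚ] w (-g)) _ (fun g => rfl))]
    unfold fc
    rw [← sum_neg_distrib]
    refine sum_congr rfl fun g _ => ?_
    rw [hw g, TensorProduct.tmul_neg]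
    congr 2
    have : (((-g)⁻¹ : (ZMod q)ˣ) : ZMod q) = (-1) * ((g⁻¹ : (ZMod q)ˣ) : ZMod q) := by
      rw [inv_neg, Units.val_neg]
      ring
    rw [this, map_mul, hχ, one_mul]
  have h2 : (2 : ℂ) • fc w χ = 0 := by
    rw [two_smul]
    exact eq_neg_iff_add_eq_zero.1 h1
  exact (smul_eq_zero.1 h2).resolve_left two_ne_zero

theorem fc_inversion (w : (ZMod q)ˣ → V) (a : (ZMod q)ˣ) :
    ∑ χ : DirichletCharacter ℂ q, χ (a : ZMod q) • fc w χ =
      (q.totient : ℂ) • ((1 : ℂ) ⊗ₜ[ℚ] w a) := by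
  classical
  unfold fc
  simp_rw [smul_sum, TensorProduct.smul_tmul', smul_eq_mul]
  rw [sum_comm]
  have h1 : ∀ g : (ZMod q)ˣ, ∑ χ : DirichletCharacter ℂ q,
      (χ (a : ZMod q) * χ ((g⁻¹ : (ZMod q)ˣ) : ZMod q)) ⊗ₜ[ℚ] w g =
      (if g = a then (q.totient : ℂ) else 0) ⊗ₜ[ℚ] w g := by
    intro g
    rw [← TensorProduct.sum_tmul]
    congr 1
    have h2 := DirichletCharacter.sum_char_inv_mul_char_eq ℂ (n := q) (a := (g : ZMod q))
      g.isUnit (a : ZMod q)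
    have h3 : ((g : ZMod q) = (a : ZMod q)) ↔ g = a := Units.ext_iff.symm
    rw [← if_congr h3 rfl rfl, ← h2]
    refine sum_congr rfl fun χ _ => ?_
    rw [mul_comm, ZMod.inv_coe_unit]
  rw [sum_congr rfl (fun g _ => h1 g)]
  rw [sum_eq_single a]
  · rw [if_pos rfl, mul_one]
  · intro g _ hg
    rw [if_neg hg, TensorProduct.zero_tmul]
  · intro h
    exact absurd (mem_univ _) h

theorem finrank_le_of_fc (w : (ZMod q)ˣ → V) (hspan : Submodule.span ℚ (Set.range w) = ⊤)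
    (S : Finset (DirichletCharacter ℂ q)) (hS : ∀ χ, χ ∉ S → fc w χ = 0) :
    Module.finrank ℚ V ≤ S.card := by
  classical
  have htop : Submodule.span ℂ ((S.image (fc w) : Finset (ℂ ⊗[ℚ] V)) : Set (ℂ ⊗[ℚ] V)) = ⊤ := by
    rw [eq_top_iff]
    have h1 : (⊤ : Submodule ℂ (ℂ ⊗[ℚ] V)) =
        Submodule.span ℂ ((TensorProduct.mk ℚ ℂ V 1) '' Set.range w) := by
      rw [← Submodule.baseChange_span, hspan, Submodule.baseChange_top]
    rw [h1, Submodule.span_le]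
    rintro _ ⟨_, ⟨a, rfl⟩, rfl⟩
    have hq : (q.totient : ℂ) ≠ 0 := by
      rw [Nat.cast_ne_zero]
      exact (Nat.totient_pos.2 (Nat.pos_of_ne_zero (NeZero.ne q))).ne'
    have h2 : (TensorProduct.mk ℚ ℂ V 1) (w a) =
        (q.totient : ℂ)⁻¹ • ∑ χ : DirichletCharacter ℂ q, χ (a : ZMod q) • fc w χ := by
      rw [fc_inversion, smul_smul, inv_mul_cancel₀ hq, one_smul]
      rfl
    rw [h2]
    refine Submodule.smul_mem _ _ (Submodule.sum_mem _ fun χ _ => Submodule.smul_mem _ _ ?_)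
    by_cases hχ : χ ∈ S
    · apply Submodule.subset_span
      rw [coe_image]
      exact ⟨χ, hχ, rfl⟩
    · rw [hS χ hχ]
      exact Submodule.zero_mem _
  have h3 : Module.finrank ℂ (ℂ ⊗[ℚ] V) = Module.finrank ℚ V := Module.finrank_baseChange
  rw [← h3, ← finrank_top (R := ℂ) (M := ℂ ⊗[ℚ] V), ← htop]
  calc Module.finrank ℂ (Submodule.span ℂ ((S.image (fc w) : Finset (ℂ ⊗[ℚ] V)) :
        Set (ℂ ⊗[ℚ] V))) ≤ (S.image (fc w)).card := finrank_span_finset_le_card _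
    _ ≤ S.card := card_image_le

end

end

end Run7.h372.LR
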