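import Mathlib
import Pool.Agent.Run7.h372.LRe

set_option autoImplicit false

/-! The characters that contribute. -/

namespace Run7.h372.LR

noncomputable section

open Finset

/-- the part of `q` prime to `l` -/
abbrev cp (q l : ℕ) : ℕ := q / l ^ q.factorization l

variable {q : ℕ} [NeZero q]

theorem cop {l : ℕ} (hl : l.Prime) : Nat.Coprime l (cp q l) :=
  Nat.coprime_ordCompl hl (NeZero.ne q)

/-- the group of the units that are congruent to a power of `l` modulo the part of `q` prime to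
`l` -/
def H (q : ℕ) [NeZero q] {l : ℕ} (hl : l.Prime) : Subgroup (ZMod q)ˣ :=
  Kl (Nat.ordCompl_dvd q l) (cop (q := q) hl)

theorem sum_H {l : ℕ} (hq : 2 < q) (hl : l.Prime) (hlq : l ∣ q) [DecidablePred (· ∈ H q hl)]
    (g : (ZMod q)ˣ) : ∑ k : (ZMod q)ˣ with k ∈ H q hl, v q (g * k) = 0 := by
  have key : ∀ (q' : ℕ) (m e : ℕ) (_ : q' = m * l ^ (e + 1)) (_ : NeZero q') (_ : 2 < q')
      (hdvd : m ∣ q') (hlm : Nat.Coprime l m) (_ : DecidablePred (· ∈ Kl hdvd hlm))
      (g : (ZMod q')ˣ),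
      ∑ k : (ZMod q')ˣ with k ∈ Kl hdvd hlm, v q' (g * k) = 0 := by
    intro q' m e hqe hne hq2 hdvd hlm hdec g
    subst hqe
    have hm0 : 0 < m := by
      rcases Nat.eq_zero_or_pos m with h | h
      · subst h; omega
      · exact h
    exact sum_Kl_mul hl hlm hm0 hq2 hdvd g
  have hf : 0 < q.factorization l :=
    hl.factorization_pos_of_dvd (NeZero.ne q) hlq
  refine key q (cp q l) (q.factorization l - 1) ?_ inferInstance hq _ _ _ g
  rw [Nat.sub_add_cancel hf]
  have := Nat.ordProj_mul_ordCompl_eq_self q l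
  rw [mul_comm] at this
  exact this.symm

/-- the character is odd and its primitive version is not `1` at the prime divisors of `q` -/
def Good (χ : DirichletCharacter ℂ q) : Prop :=
  χ (-1) = -1 ∧ ∀ l : ℕ, l.Prime → l ∣ q → χ.primitiveCharacter (l : ZMod χ.conductor) ≠ 1

theorem changeLevel_apply_unit {m : ℕ} (hm : m ∣ q) (ψ : DirichletCharacter ℂ m) (k : (ZMod q)ˣ) :
    DirichletCharacter.changeLevel hm ψ (k : ZMod q) = ψ ((ZMod.unitsMap hm k : (ZMod m)ˣ) : ZMod m) := by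
  rw [DirichletCharacter.changeLevel_eq_cast_of_dvd, ZMod.unitsMap_val]

theorem exists_of_primitive {l : ℕ} (hl : l.Prime) (χ : DirichletCharacter ℂ q)
    (h : χ.primitiveCharacter (l : ZMod χ.conductor) = 1) :
    ∃ ψ : DirichletCharacter ℂ (cp q l), ψ (l : ZMod (cp q l)) = 1 ∧
      DirichletCharacter.changeLevel (Nat.ordCompl_dvd q l) ψ = χ := by
  have : Fact l.Prime := ⟨hl⟩
  rw [← DirichletCharacter.mem_subgroupOfPrimitiveMapToOne_iff] at h
  unfold DirichletCharacter.subgroupOfPrimitiveMapToOne at h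
  simp only [Subgroup.mem_map, DirichletCharacter.mem_annihilator_iff,
    Set.mem_singleton_iff, forall_eq, ZMod.coe_unitOfCoprime] at h
  exact h

theorem primitive_of_exists {l : ℕ} (hl : l.Prime)
    (ψ : DirichletCharacter ℂ (cp q l)) (h : ψ (l : ZMod (cp q l)) = 1) :
    (DirichletCharacter.changeLevel (Nat.ordCompl_dvd q l) ψ).primitiveCharacter
      (l : ZMod (DirichletCharacter.changeLevel (Nat.ordCompl_dvd q l) ψ).conductor) = 1 := by
  have : Fact l.Prime := ⟨hl⟩
  rw [← DirichletCharacter.mem_subgroupOfPrimitiveMapToOne_iff]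
  unfold DirichletCharacter.subgroupOfPrimitiveMapToOne
  simp only [Subgroup.mem_map, DirichletCharacter.mem_annihilator_iff,
    Set.mem_singleton_iff, forall_eq, ZMod.coe_unitOfCoprime]
  exact ⟨ψ, h, rfl⟩

theorem apply_eq_one_of_zpowers {m l : ℕ} (hlm : Nat.Coprime l m) (ψ : DirichletCharacter ℂ m)
    (h : ψ (l : ZMod m) = 1) (c : (ZMod m)ˣ)
    (hc : c ∈ Subgroup.zpowers (ZMod.unitOfCoprime l hlm)) : ψ (c : ZMod m) = 1 := by
  obtain ⟨i, rfl⟩ := Subgroup.mem_zpowers_iff.1 hc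
  have h1 : ψ.toUnitHom (ZMod.unitOfCoprime l hlm) = 1 := by
    apply Units.ext
    rw [MulChar.coe_toUnitHom, ZMod.coe_unitOfCoprime, h, Units.val_one]
  have h2 : ψ.toUnitHom (ZMod.unitOfCoprime l hlm ^ i) = 1 := by
    rw [map_zpow, h1, one_zpow]
  rw [← MulChar.coe_toUnitHom, h2, Units.val_one]

theorem apply_H_of_primitive {l : ℕ} (hl : l.Prime) (χ : DirichletCharacter ℂ q)
    (h : χ.primitiveCharacter (l : ZMod χ.conductor) = 1) (k : (ZMod q)ˣ) (hk : k ∈ H q hl) :
    χ (k : ZMod q) = 1 := by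
  obtain ⟨ψ, hψ, rfl⟩ := exists_of_primitive hl χ h
  rw [changeLevel_apply_unit]
  exact apply_eq_one_of_zpowers (cop hl) ψ hψ _ hk

theorem sq_neg_one (χ : DirichletCharacter ℂ q) : χ (-1) = 1 ∨ χ (-1) = -1 := χ.even_or_odd

/-- half of the characters are odd -/
theorem card_odd (hq : 2 < q) [DecidablePred fun χ : DirichletCharacter ℂ q => χ (-1) = -1] :
    2 * (univ.filter (fun χ : DirichletCharacter ℂ q => χ (-1) = -1)).card = q.totient := by
  classical
  have hne : (-1 : ZMod q) ≠ 1 := by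
    have : Fact (2 < q) := ⟨hq⟩
    exact ZMod.neg_one_ne_one
  have h0 : ∑ χ : DirichletCharacter ℂ q, χ (-1) = 0 :=
    DirichletCharacter.sum_characters_eq_zero ℂ hne
  have h1 : ∑ χ : DirichletCharacter ℂ q, (1 - χ (-1)) = (q.totient : ℂ) := by
    rw [sum_sub_distrib, h0, sub_zero, sum_const, nsmul_eq_mul, mul_one, card_univ,
      ← Nat.card_eq_fintype_card, DirichletCharacter.card_eq_totient_of_hasEnoughRootsOfUnity]
  have h2 : ∑ χ : DirichletCharacter ℂ q, (1 - χ (-1)) =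
      ∑ χ : DirichletCharacter ℂ q, if χ (-1) = -1 then (2 : ℂ) else 0 := by
    refine sum_congr rfl fun χ _ => ?_
    split_ifs with h
    · rw [h]; norm_num
    · rcases sq_neg_one χ with h' | h'
      · rw [h']; norm_num
      · exact absurd h' h
  rw [h2, ← sum_filter, sum_const, nsmul_eq_mul] at h1
  have h3 : ((univ.filter (fun χ : DirichletCharacter ℂ q => χ (-1) = -1)).card : ℂ) * 2 =
      (q.totient : ℂ) := h1
  have h4 : (univ.filter (fun χ : DirichletCharacter ℂ q => χ (-1) = -1)).card * 2 =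
      q.totient := by exact_mod_cast h3
  omega

/-- the number of the characters that contribute -/
def rho (q : ℕ) [NeZero q] : ℕ := Nat.card {χ : DirichletCharacter ℂ q // Good χ}

theorem rho_eq [DecidablePred fun χ : DirichletCharacter ℂ q => Good χ] :
    rho q = (univ.filter (fun χ : DirichletCharacter ℂ q => Good χ)).card := by
  unfold rho
  rw [Nat.card_eq_fintype_card, Fintype.card_subtype]

theorem not_good_of_mem {l : ℕ} (hl : l.Prime) (χ : DirichletCharacter ℂ q)
    (h : χ.primitiveCharacter (l : ZMod χ.conductor) = 1) (hlq : l ∣ q) : ¬ Good χ :=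
  fun hg => hg.2 l hl hlq h

/-- `-1` is congruent to a power of `l` modulo the part of `q` prime to `l` -/
def Neg (q l : ℕ) : Prop := ∃ k : ℕ, cp q l ∣ l ^ k + 1

theorem neg_iff {l : ℕ} (hl : l.Prime) :
    Neg q l ↔ (-1 : (ZMod (cp q l))ˣ) ∈ Subgroup.zpowers (ZMod.unitOfCoprime l (cop (q := q) hl)) := by
  have hm : NeZero (cp q l) := ⟨(Nat.ordCompl_pos l (NeZero.ne q)).ne'⟩
  rw [← mem_powers_iff_mem_zpowers, Submonoid.mem_powers_iff]
  unfold Neg
  refine exists_congr fun k => ?_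
  rw [Units.ext_iff, Units.val_pow_eq_pow_val, ZMod.coe_unitOfCoprime, Units.val_neg,
    Units.val_one, eq_neg_iff_add_eq_zero, ← ZMod.natCast_eq_zero_iff]
  push_cast
  rfl

theorem exists_bad {l : ℕ} (hl : l.Prime) (h : ¬ Neg q l) :
    ∃ χ : DirichletCharacter ℂ q, χ (-1) = -1 ∧
      χ.primitiveCharacter (l : ZMod χ.conductor) = 1 := by
  have hm : NeZero (cp q l) := ⟨(Nat.ordCompl_pos l (NeZero.ne q)).ne'⟩
  rw [neg_iff hl] at h
  set u := ZMod.unitOfCoprime l (cop (q := q) hl) with hu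
  have h1 : (QuotientGroup.mk (-1) : (ZMod (cp q l))ˣ ⧸ Subgroup.zpowers u) ≠ 1 := by
    rw [Ne, QuotientGroup.eq_one_iff]
    exact h
  have hexp : NeZero (Monoid.exponent ((ZMod (cp q l))ˣ ⧸ Subgroup.zpowers u)) :=
    ⟨fun h0 => by
      have h2 := Group.exponent_dvd_nat_card (G := (ZMod (cp q l))ˣ ⧸ Subgroup.zpowers u)
      rw [h0, zero_dvd_iff] at h2
      exact Nat.card_pos.ne' h2⟩
  obtain ⟨φ, hφ⟩ := CommGroup.exists_apply_ne_one_of_hasEnoughRootsOfUnity
    ((ZMod (cp q l))ˣ ⧸ Subgroup.zpowers u) ℂ h1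
  set ψ : DirichletCharacter ℂ (cp q l) :=
    MulChar.ofUnitHom (φ.comp (QuotientGroup.mk' (Subgroup.zpowers u))) with hψ
  have hψ1 : ∀ c : (ZMod (cp q l))ˣ, ψ (c : ZMod (cp q l)) = φ (QuotientGroup.mk c) := by
    intro c
    rw [hψ, MulChar.ofUnitHom_coe]
    rfl
  have hψl : ψ (l : ZMod (cp q l)) = 1 := by
    have h2 := hψ1 u
    have h3 : (QuotientGroup.mk u : (ZMod (cp q l))ˣ ⧸ Subgroup.zpowers u) = 1 := by
      rw [QuotientGroup.eq_one_iff]
      exact Subgroup.mem_zpowers u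
    rw [h3, map_one, Units.val_one, hu, ZMod.coe_unitOfCoprime] at h2
    exact h2
  have hψn : ψ (-1) ≠ 1 := by
    have h2 := hψ1 (-1)
    rw [Units.val_neg, Units.val_one] at h2
    rw [h2]
    intro h3
    exact hφ (Units.ext h3)
  refine ⟨DirichletCharacter.changeLevel (Nat.ordCompl_dvd q l) ψ, ?_,
    primitive_of_exists hl ψ hψl⟩
  have h4 : DirichletCharacter.changeLevel (Nat.ordCompl_dvd q l) ψ (-1) = ψ (-1) := by
    have h5 := changeLevel_apply_unit (Nat.ordCompl_dvd q l) ψ (-1)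
    rw [Units.val_neg, Units.val_one] at h5
    rw [h5]
    congr 1
    rw [ZMod.unitsMap_val, Units.val_neg, Units.val_one,
        ZMod.cast_neg (Nat.ordCompl_dvd q l), ZMod.cast_one (Nat.ordCompl_dvd q l)]
  rw [h4]
  rcases sq_neg_one ψ with h5 | h5
  · exact absurd h5 hψn
  · exact h5

theorem primitive_ne_one_of_neg {l : ℕ} (hl : l.Prime) (h : Neg q l)
    (χ : DirichletCharacter ℂ q) (hχ : χ (-1) = -1) :
    χ.primitiveCharacter (l : ZMod χ.conductor) ≠ 1 := by
  intro h1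
  have h2 : (-1 : (ZMod q)ˣ) ∈ H q hl := by
    refine Subgroup.mem_comap.2 ?_
    have h3 : ZMod.unitsMap (Nat.ordCompl_dvd q l) (-1 : (ZMod q)ˣ) = -1 := by
      apply Units.ext
      rw [ZMod.unitsMap_val, Units.val_neg, Units.val_one, Units.val_neg, Units.val_one,
        ZMod.cast_neg (Nat.ordCompl_dvd q l), ZMod.cast_one (Nat.ordCompl_dvd q l)]
    rw [h3]
    exact (neg_iff hl).1 h
  have h4 := apply_H_of_primitive hl χ h1 (-1) h2
  rw [Units.val_neg, Units.val_one, hχ] at h4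
  norm_num at h4

theorem rho_le (hq : 2 < q) : 2 * rho q ≤ q.totient := by
  classical
  rw [rho_eq, ← card_odd hq]
  refine Nat.mul_le_mul_left 2 (card_le_card ?_)
  intro χ hχ
  rw [mem_filter] at hχ ⊢
  exact ⟨hχ.1, hχ.2.1⟩

theorem rho_lt_iff (hq : 2 < q) :
    2 * rho q < q.totient ↔ ∃ l : ℕ, l.Prime ∧ l ∣ q ∧ ¬ Neg q l := by
  classical
  constructor
  · intro h
    by_contra hcon
    push Not at hcon
    apply h.ne
    rw [rho_eq, ← card_odd hq]
    congr 2
    ext χ
    rw [mem_filter, mem_filter]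
    refine ⟨fun h1 => ⟨h1.1, h1.2.1⟩, fun h1 => ⟨h1.1, h1.2, fun l hl hlq => ?_⟩⟩
    exact primitive_ne_one_of_neg hl (hcon l hl hlq) χ h1.2
  · rintro ⟨l, hl, hlq, hn⟩
    obtain ⟨χ, hχ, hχl⟩ := exists_bad (q := q) hl hn
    rw [rho_eq, ← card_odd hq]
    refine Nat.mul_lt_mul_of_pos_left (card_lt_card ?_) two_pos
    rw [Finset.ssubset_iff_of_subset]
    · refine ⟨χ, ?_, ?_⟩
      · rw [mem_filter]
        exact ⟨mem_univ _, hχ⟩
      · rw [mem_filter]
        intro h1
        exact not_good_of_mem hl χ hχl hlq h1.2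
    · intro χ hχ
      rw [mem_filter] at hχ ⊢
      exact ⟨hχ.1, hχ.2.1⟩

/-- the rational space spanned by the classes of the `Γ(a / q)` -/
abbrev W0 (q : ℕ) : Submodule ℚ W := Submodule.span ℚ (Set.range (v q))

/-- the class in this space -/
def w0 (q : ℕ) (a : (ZMod q)ˣ) : W0 q := ⟨v q a, Submodule.subset_span ⟨a, rfl⟩⟩

theorem span_w0 (q : ℕ) : Submodule.span ℚ (Set.range (w0 q)) = ⊤ := by
  have h := Submodule.span_span_coe_preimage (R := ℚ) (s := Set.range (v q))
  rw [← h]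
  congr 1
  ext x
  constructor
  · rintro ⟨a, rfl⟩
    exact ⟨a, rfl⟩
  · rintro ⟨a, ha⟩
    exact ⟨a, Subtype.ext ha⟩

theorem finrank_W0 (hq : 2 < q) : Module.finrank ℚ (W0 q) ≤ rho q := by
  classical
  rw [rho_eq]
  refine finrank_le_of_fc (w0 q) (span_w0 q) _ ?_
  intro χ hχ
  rw [mem_filter, not_and] at hχ
  have h1 : ¬ Good χ := hχ (mem_univ _)
  unfold Good at h1
  rw [not_and_or] at h1
  rcases h1 with h1 | h1
  · apply fc_eq_zero_of_even
    · intro g
      apply Subtype.ext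
      exact v_neg (by omega) g
    · rcases sq_neg_one χ with h2 | h2
      · exact h2
      · exact absurd h2 h1
  · push Not at h1
    obtain ⟨l, hl, hlq, h2⟩ := h1
    apply fc_eq_zero_of_sum (w0 q) χ (H q hl) (apply_H_of_primitive hl χ h2)
    intro g
    apply Subtype.ext
    rw [AddSubmonoidClass.coe_finset_sum]
    exact sum_H hq hl hlq g

end

end Run7.h372.LR
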