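import Mathlib
import Pool.Agent.Run7.h372.LRf

set_option autoImplicit false

/-! The bound for the transcendence degree. -/

namespace Run7.h372.LR

noncomputable section

open Finset

section general

open scoped IntermediateField.algebraAdjoinAdjoin

theorem trdeg_adjoin_le {ι : Type} [Fintype ι] (x : ι → ℂ) :
    Algebra.trdeg ℚ (IntermediateField.adjoin ℚ (Set.range x)) ≤ (Fintype.card ι : ℕ) := by
  have h1 : Algebra.trdeg ℚ (Algebra.adjoin ℚ (Set.range x)) ≤ (Fintype.card ι : ℕ) := by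
    have e : Algebra.adjoin ℚ (Set.range x) = (MvPolynomial.aeval x : MvPolynomial ι ℚ →ₐ[ℚ] ℂ).range :=
      Algebra.adjoin_range_eq_range_aeval ℚ x
    rw [e]
    have h2 := trdeg_le_of_surjective (MvPolynomial.aeval x : MvPolynomial ι ℚ →ₐ[ℚ] ℂ).rangeRestrict
      (AlgHom.rangeRestrict_surjective _)
    refine h2.trans ?_
    rw [MvPolynomial.trdeg_of_isDomain]
    simp
  have h3 : Algebra.trdeg (Algebra.adjoin ℚ (Set.range x))
      (IntermediateField.adjoin ℚ (Set.range x)) = 0 := by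
    have : Algebra.IsAlgebraic (Algebra.adjoin ℚ (Set.range x))
      (IntermediateField.adjoin ℚ (Set.range x)) :=
        IsLocalization.isAlgebraic _ (nonZeroDivisors (Algebra.adjoin ℚ (Set.range x)))
    exact trdeg_eq_zero
  have h4 := trdeg_add_eq ℚ (Algebra.adjoin ℚ (Set.range x))
    (A := IntermediateField.adjoin ℚ (Set.range x))
  rw [← h4, h3, add_zero]
  exact h1

theorem trdeg_le_of_algebraic {ι : Type} [Fintype ι] (x : ι → ℂ) (F : IntermediateField ℚ ℂ)
    (h : ∀ z ∈ F, IsAlgebraic (IntermediateField.adjoin ℚ (Set.range x)) z) :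
    Algebra.trdeg ℚ F ≤ (Fintype.card ι : ℕ) := by
  set L := IntermediateField.adjoin ℚ (Set.range x) with hL
  set M := algebraicClosure L ℂ with hM
  have hmem : ∀ z ∈ F, z ∈ M := fun z hz => mem_algebraicClosure_iff.2 (h z hz)
  let f : F →ₐ[ℚ] M :=
    { toFun := fun z => ⟨z.1, hmem z.1 z.2⟩
      map_one' := rfl
      map_mul' := fun _ _ => rfl
      map_zero' := rfl
      map_add' := fun _ _ => rfl
      commutes' := fun _ => rfl }
  have hf : Function.Injective f := by
    intro a b hab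
    have h1 := congrArg (fun z : M => (z : ℂ)) hab
    exact Subtype.ext h1
  have h1 := trdeg_le_of_injective f hf
  have h2 : Algebra.trdeg L M = 0 := trdeg_eq_zero
  have h3 := trdeg_add_eq ℚ L (A := M)
  rw [h2, add_zero] at h3
  rw [← h3] at h1
  exact h1.trans (trdeg_adjoin_le x)

end general

/-- a complex number that is algebraic over a subfield is algebraic over a larger one -/
theorem isAlgebraic_mono {K L : IntermediateField ℚ ℂ} (h : K ≤ L) {z : ℂ} (hz : IsAlgebraic K z) :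
    IsAlgebraic L z := by
  letI : Algebra K L := (IntermediateField.inclusion h).toRingHom.toAlgebra
  haveI : IsScalarTower K L ℂ := IsScalarTower.of_algebraMap_eq (fun _ => rfl)
  exact hz.tower_top L

/-- a common denominator -/
theorem exists_common_den {κ : Type} [Fintype κ] (c : κ → ℚ) :
    ∃ N : ℕ, 0 < N ∧ ∀ i, ∃ n : ℤ, (N : ℚ) * c i = n := by
  refine ⟨∏ i, (c i).den, Finset.prod_pos fun i _ => (c i).den_pos, fun i => ?_⟩
  obtain ⟨t, ht⟩ := Finset.dvd_prod_of_mem (fun i => (c i).den) (Finset.mem_univ i)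
  refine ⟨t * (c i).num, ?_⟩
  rw [ht]
  push_cast
  have := Rat.mul_den_eq_num (c i)
  rw [← this]
  ring

/-- the unit `Γ(a / q)` -/
def gu (q : ℕ) (a : (ZMod q)ˣ) : ℂˣ := ru (Real.Gamma ((((a : ZMod q).val : ℚ) / q : ℚ) : ℝ))

theorem cls_gu (q : ℕ) (a : (ZMod q)ˣ) : cls (gu q a) = v q a := rfl

theorem gu_val {q : ℕ} (hq : 1 < q) (a : (ZMod q)ˣ) :
    (gu q a : ℂ) = Complex.Gamma (((a : ZMod q).val : ℂ) / q) := by
  have h1 := unit_val_pos hq a
  have hqq : (0 : ℚ) < q := by exact_mod_cast (by omega : 0 < q)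
  have h2 : (0 : ℚ) < ((a : ZMod q).val : ℚ) := by exact_mod_cast h1
  unfold gu
  rw [ru_val (Gpos (by positivity)), ← Complex.Gamma_ofReal]
  push_cast
  rfl

theorem algebraic_of_mem_span {q : ℕ} {κ : Type} [Fintype κ]
    (a : κ → (ZMod q)ˣ) (b : (ZMod q)ˣ) (h : v q b ∈ Submodule.span ℚ (Set.range (v q ∘ a)))
    (L : IntermediateField ℚ ℂ) (hpi : (Real.pi : ℂ) ∈ L) (hL : ∀ i, (gu q (a i) : ℂ) ∈ L) :
    IsAlgebraic L (gu q b : ℂ) := by
  classical
  obtain ⟨c, hc⟩ := (Submodule.mem_span_range_iff_exists_fun ℚ).1 h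
  obtain ⟨N, hN, hn⟩ := exists_common_den c
  choose n hn using hn
  have h1 : cls (gu q b ^ N * (∏ i, gu q (a i) ^ (n i))⁻¹) = 0 := by
    rw [cls_mul, cls_inv, cls_prod, cls_pow, cls_gu, ← hc]
    have h2 : N • (∑ i, c i • (v q ∘ a) i) = ∑ i, ((n i : ℚ)) • (v q (a i)) := by
      rw [← Nat.cast_smul_eq_nsmul ℚ, smul_sum]
      refine sum_congr rfl fun i _ => ?_
      rw [smul_smul, hn i]
      rfl
    have h3 : ∑ i, cls (gu q (a i) ^ (n i)) = ∑ i, ((n i : ℚ)) • (v q (a i)) := by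
      refine sum_congr rfl fun i _ => ?_
      rw [cls_zpow, cls_gu, ← Int.cast_smul_eq_zsmul ℚ]
    rw [h2, h3, add_neg_cancel]
  have h2 := mem_of_cls_eq_zero h1
  rw [mem_E] at h2
  have hKL : K ≤ L := by
    unfold K
    rw [IntermediateField.adjoin_simple_le_iff]
    exact hpi
  have h3 := isAlgebraic_mono hKL h2
  set M := algebraicClosure L ℂ with hM
  have h4 : ((gu q b ^ N * (∏ i, gu q (a i) ^ (n i))⁻¹ : ℂˣ) : ℂ) ∈ M :=
    mem_algebraicClosure_iff.2 h3
  have h5 : ((∏ i, gu q (a i) ^ (n i) : ℂˣ) : ℂ) ∈ M := by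
    rw [Units.coe_prod]
    refine M.prod_mem fun i _ => ?_
    rw [Units.val_zpow_eq_zpow_val]
    refine zpow_mem ?_ _
    exact M.algebraMap_mem ⟨_, hL i⟩
  have h6 : ((gu q b : ℂˣ) : ℂ) ^ N ∈ M := by
    have h7 := M.mul_mem h4 h5
    rw [← Units.val_mul, mul_assoc, inv_mul_cancel, mul_one, Units.val_pow_eq_pow_val] at h7
    exact h7
  exact (mem_algebraicClosure_iff.1 h6).of_pow hN

/-- the field generated by `π` and the `Γ(a / q)` -/
def Fq (q : ℕ) : IntermediateField ℚ ℂ :=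
  IntermediateField.adjoin ℚ ({(Real.pi : ℂ)} ∪
    {z : ℂ | ∃ a : ℕ, 1 ≤ a ∧ a ≤ q - 1 ∧ Nat.gcd a q = 1 ∧ z = Complex.Gamma ((a : ℂ) / q)})

theorem trdeg_Fq_le {q : ℕ} [NeZero q] (hq : 2 < q) :
    Algebra.trdeg ℚ (Fq q) ≤ ((1 + rho q : ℕ) : Cardinal) := by
  classical
  obtain ⟨κ, a, ha, hspan, hli⟩ := exists_linearIndependent' ℚ (v q)
  have hfin : Finite κ := Finite.of_injective a ha
  have hft : Fintype κ := Fintype.ofFinite κ
  have hcard : Fintype.card κ = Module.finrank ℚ (W0 q) := by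
    rw [← finrank_span_eq_card hli, hspan]
  let x : Option κ → ℂ := fun o => o.elim (Real.pi : ℂ) (fun i => (gu q (a i) : ℂ))
  have key : ∀ z ∈ Fq q, IsAlgebraic (IntermediateField.adjoin ℚ (Set.range x)) z := by
    set L := IntermediateField.adjoin ℚ (Set.range x) with hL
    have hpi : (Real.pi : ℂ) ∈ L :=
      IntermediateField.subset_adjoin ℚ _ ⟨none, rfl⟩
    have hG : ∀ i, (gu q (a i) : ℂ) ∈ L := fun i =>
      IntermediateField.subset_adjoin ℚ _ ⟨some i, rfl⟩
    have hle : Fq q ≤ (algebraicClosure L ℂ).restrictScalars ℚ := by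
      unfold Fq
      rw [IntermediateField.adjoin_le_iff]
      rintro z (hz | ⟨n, hn1, hn2, hn3, rfl⟩)
      · rw [Set.mem_singleton_iff] at hz
        rw [hz]
        show (Real.pi : ℂ) ∈ algebraicClosure L ℂ
        exact (algebraicClosure L ℂ).algebraMap_mem ⟨_, hpi⟩
      · show Complex.Gamma ((n : ℂ) / q) ∈ algebraicClosure L ℂ
        have hc : Nat.Coprime n q := hn3
        have h1 : ((ZMod.unitOfCoprime n hc : (ZMod q)ˣ) : ZMod q).val = n := by
          rw [ZMod.coe_unitOfCoprime, ZMod.val_natCast, Nat.mod_eq_of_lt (by omega)]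
        have h2 := gu_val (by omega : 1 < q) (ZMod.unitOfCoprime n hc)
        rw [h1] at h2
        rw [← h2, mem_algebraicClosure_iff]
        refine algebraic_of_mem_span a _ ?_ L hpi hG
        rw [hspan]
        exact Submodule.subset_span ⟨_, rfl⟩
    intro z hz
    exact mem_algebraicClosure_iff.1 (hle hz)
  have h1 := trdeg_le_of_algebraic x (Fq q) key
  refine h1.trans ?_
  rw [Fintype.card_option, hcard]
  have := finrank_W0 (q := q) hq
  exact_mod_cast (by omega : Module.finrank ℚ (W0 q) + 1 ≤ 1 + rho q)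

end

end Run7.h372.LR
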