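import Mathlib
import Pool.Agent.Run7.h372.LRf
import Pool.Agent.N232.GC.DIV

set_option autoImplicit false

/-! Sieving by the primes in a residue class. -/

namespace Run7.h372.LR

noncomputable section

open Finset Filter Topology

/-- the set has density zero -/
def Thin (S : Set ℕ) : Prop :=
  ∀ ε : ℝ, 0 < ε → ∃ N₀ : ℕ, ∀ N : ℕ, N₀ ≤ N → ((S ∩ Set.Icc 1 N).ncard : ℝ) ≤ ε * N

theorem fin_inter (S : Set ℕ) (N : ℕ) : (S ∩ Set.Icc 1 N).Finite :=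
  (Set.finite_Icc 1 N).inter_of_right S

theorem totient_prod_le (U : Finset ℕ) (hU : ∀ p ∈ U, p.Prime) :
    ((∏ p ∈ U, p).totient : ℝ) ≤ ((∏ p ∈ U, p : ℕ) : ℝ) * Real.exp (- ∑ p ∈ U, (1 : ℝ) / p) := by
  have h1 : (∏ p ∈ U, p).primeFactors = U := Nat.primeFactors_prod hU
  have h2 := Nat.totient_eq_mul_prod_factors (∏ p ∈ U, p)
  rw [h1] at h2
  have h3 : ((∏ p ∈ U, p).totient : ℝ) =
      ((∏ p ∈ U, p : ℕ) : ℝ) * ∏ p ∈ U, (1 - (p : ℝ)⁻¹) := by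
    have := congrArg (fun x : ℚ => (x : ℝ)) h2
    push_cast at this ⊢
    exact this
  rw [h3, ← sum_neg_distrib, Real.exp_sum]
  refine mul_le_mul_of_nonneg_left ?_ (Nat.cast_nonneg _)
  refine prod_le_prod (fun p hp => ?_) (fun p hp => ?_)
  · have : (1 : ℝ) ≤ p := by exact_mod_cast (hU p hp).one_lt.le
    have h4 : (p : ℝ)⁻¹ ≤ 1 := inv_le_one_of_one_le₀ this
    linarith
  · have := Real.add_one_le_exp (-((1 : ℝ) / p))
    rw [one_div] at this ⊢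
    linarith

theorem sieve (T : Set ℕ) (hT : ∀ p ∈ T, p.Prime)
    (hns : ¬ Summable (T.indicator fun n : ℕ => (1 : ℝ) / n)) (ε : ℝ) (hε : 0 < ε) :
    ∃ U : Finset ℕ, (∀ p ∈ U, p ∈ T) ∧ ∃ N₀ : ℕ, ∀ N : ℕ, N₀ ≤ N →
      (({n : ℕ | ∀ p ∈ U, ¬ p ∣ n} ∩ Set.Icc 1 N).ncard : ℝ) ≤ ε * N := by
  classical
  have h0 : ∀ n : ℕ, 0 ≤ T.indicator (fun n : ℕ => (1 : ℝ) / n) n := fun n =>
    Set.indicator_nonneg (fun _ _ => by positivity) _
  rw [not_summable_iff_tendsto_nat_atTop_of_nonneg h0] at hns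
  obtain ⟨n, hn⟩ := (hns.eventually (eventually_ge_atTop (- Real.log (ε / 2)))).exists
  set U : Finset ℕ := (range n).filter (· ∈ T) with hUdef
  have hUT : ∀ p ∈ U, p ∈ T := fun p hp => by
    rw [hUdef, mem_filter] at hp
    exact hp.2
  have hUp : ∀ p ∈ U, p.Prime := fun p hp => hT p (hUT p hp)
  have hsum : ∑ p ∈ U, (1 : ℝ) / p = ∑ i ∈ range n, T.indicator (fun n : ℕ => (1 : ℝ) / n) i := by
    rw [hUdef, sum_filter]
    refine sum_congr rfl fun i _ => ?_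
    by_cases h : i ∈ T
    · rw [if_pos h, Set.indicator_of_mem h]
    · rw [if_neg h, Set.indicator_of_notMem h]
  set M : ℕ := ∏ p ∈ U, p with hM
  have hM0 : 0 < M := prod_pos fun p hp => (hUp p hp).pos
  have hM0' : (0 : ℝ) < M := by exact_mod_cast hM0
  have hφ : (M.totient : ℝ) ≤ M * (ε / 2) := by
    refine (totient_prod_le U hUp).trans (mul_le_mul_of_nonneg_left ?_ hM0'.le)
    rw [← Real.exp_log (half_pos hε), Real.exp_le_exp, hsum]
    linarith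
  refine ⟨U, hUT, M, fun N hN => ?_⟩
  have hsub : ({n : ℕ | ∀ p ∈ U, ¬ p ∣ n} ∩ Set.Icc 1 N) ⊆
      (((Ico 1 (1 + N)).filter (fun x => M.Coprime x) : Finset ℕ) : Set ℕ) := by
    rintro x ⟨hx, hx1, hx2⟩
    rw [mem_coe, mem_filter, mem_Ico]
    refine ⟨⟨hx1, by omega⟩, ?_⟩
    rw [hM, Nat.coprime_prod_left_iff]
    intro p hp
    exact (Nat.Prime.coprime_iff_not_dvd (hUp p hp)).2 (hx p hp)
  have h1 : (({n : ℕ | ∀ p ∈ U, ¬ p ∣ n} ∩ Set.Icc 1 N).ncard) ≤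
      M.totient * (N / M + 1) := by
    refine (Set.ncard_le_ncard hsub (finite_toSet _)).trans ?_
    rw [Set.ncard_coe_finset]
    exact Nat.Ico_filter_coprime_le 1 N hM0.ne'
  have h2 : ((({n : ℕ | ∀ p ∈ U, ¬ p ∣ n} ∩ Set.Icc 1 N).ncard : ℕ) : ℝ) ≤
      (M.totient : ℝ) * (((N / M : ℕ) : ℝ) + 1) := by exact_mod_cast h1
  have h3 : ((N / M : ℕ) : ℝ) ≤ N / M := Nat.cast_div_le
  have hNM : (M : ℝ) ≤ N := by exact_mod_cast hN
  calc ((({n : ℕ | ∀ p ∈ U, ¬ p ∣ n} ∩ Set.Icc 1 N).ncard : ℕ) : ℝ)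
      ≤ (M.totient : ℝ) * (((N / M : ℕ) : ℝ) + 1) := h2
    _ ≤ (M * (ε / 2)) * (N / M + 1) := by
        apply mul_le_mul hφ (by linarith) (by positivity) (by positivity)
    _ = (ε / 2) * (N + M) := by
        field_simp
    _ ≤ ε * N := by nlinarith

theorem not_summable_class (p : ℕ) (hp : 0 < p) :
    ¬ Summable ({l : ℕ | l.Prime ∧ l ≡ 1 [MOD p]}.indicator fun n : ℕ => (1 : ℝ) / n) := by
  classical
  have : NeZero p := ⟨hp.ne'⟩
  have h := Pool.Agent.N232.GC.not_summable_primes p (1 : ZMod p) isUnit_one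
  intro h1
  apply h
  refine h1.congr fun n => ?_
  rw [Set.indicator_apply]
  refine if_congr ?_ rfl rfl
  rw [Set.mem_setOf_eq, ← ZMod.natCast_eq_natCast_iff, Nat.cast_one]

theorem not_neg_of_pair {q p l : ℕ} (hq : 0 < q) (hp : p.Prime) (hp2 : 2 < p) (hl : l.Prime)
    (hlp : l ≡ 1 [MOD p]) (hpq : p ∣ q) : ¬ Neg q l := by
  rintro ⟨k, hk⟩
  have hne : ¬ l ∣ p := by
    intro h
    rw [Nat.prime_dvd_prime_iff_eq hl hp] at h
    subst h
    have h1 : l ≡ 0 [MOD l] := by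
      rw [Nat.modEq_zero_iff_dvd]
    have h2 := h1.symm.trans hlp
    have h3 := (Nat.modEq_iff_dvd' (by omega : 0 ≤ 1)).1 h2
    have := Nat.le_of_dvd (by norm_num) h3
    omega
  have h1 : p ∣ cp q l := Nat.dvd_ordCompl_of_dvd_not_dvd hpq hne
  have h2 : p ∣ l ^ k + 1 := h1.trans hk
  have h3 : l ^ k ≡ 1 [MOD p] := by
    have := hlp.pow k
    rwa [one_pow] at this
  have h4 : l ^ k + 1 ≡ 2 [MOD p] := h3.add_right 1
  have h5 : 0 ≡ 2 [MOD p] := by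
    have h6 : l ^ k + 1 ≡ 0 [MOD p] := (Nat.modEq_zero_iff_dvd).2 h2
    exact h6.symm.trans h4
  have h6 := (Nat.modEq_iff_dvd' (by omega : 0 ≤ 2)).1 h5
  have := Nat.le_of_dvd (by norm_num) h6
  omega

end

end Run7.h372.LR
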