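import Mathlib
import Pool.Agent.Run7.h372.LRg
import Pool.Agent.Run7.h372.LRh

set_option autoImplicit false

/-! A lower bound for the number of the characters that do not contribute, and the conclusion. -/

namespace Run7.h372.LR

noncomputable section

open Finset Filter Topology

theorem bad_of_level {q d l : ℕ} [NeZero q] (hdq : d ∣ q) (hld : l ≡ 1 [MOD d])
    (ψ : DirichletCharacter ℂ d) :
    (DirichletCharacter.changeLevel hdq ψ).primitiveCharacter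
      (l : ZMod (DirichletCharacter.changeLevel hdq ψ).conductor) = 1 := by
  have hcop : Nat.Coprime l d := by
    have h1 : Nat.gcd l d = Nat.gcd 1 d := hld.gcd_eq
    rw [Nat.gcd_one_left] at h1
    exact h1
  have h1 := DirichletCharacter.primitiveCharacter_changeLevel_apply hdq ψ (l : ℤ)
  rw [DirichletCharacter.primitiveCharacter_apply_of_isCoprime ψ
    (Nat.isCoprime_iff_coprime.2 hcop)] at h1
  rw [Int.cast_natCast, Int.cast_natCast] at h1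
  rw [h1]
  have h2 : (l : ZMod d) = 1 := by
    have := (ZMod.natCast_eq_natCast_iff l 1 d).2 hld
    rwa [Nat.cast_one] at this
  rw [h2, map_one]

theorem changeLevel_neg_one {q d : ℕ} [NeZero q] (hdq : d ∣ q) (ψ : DirichletCharacter ℂ d) :
    DirichletCharacter.changeLevel hdq ψ (-1) = ψ (-1) := by
  have h5 := changeLevel_apply_unit hdq ψ (-1)
  rw [Units.val_neg, Units.val_one] at h5
  rw [h5]
  congr 1
  rw [ZMod.unitsMap_val, Units.val_neg, Units.val_one,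
    ZMod.cast_neg hdq, ZMod.cast_one hdq]

theorem rho_add_le {q d l : ℕ} [NeZero q] (hd : 2 < d) (hl : l.Prime) (hld : l ≡ 1 [MOD d])
    (hdq : d ∣ q) (hlq : l ∣ q) : 2 * rho q + d.totient ≤ q.totient := by
  classical
  have hq0 : 0 < q := Nat.pos_of_ne_zero (NeZero.ne q)
  have hq : 2 < q := lt_of_lt_of_le hd (Nat.le_of_dvd hq0 hdq)
  have hd0 : NeZero d := ⟨by omega⟩
  rw [rho_eq, ← card_odd hq, ← card_odd hd, ← mul_add]
  refine Nat.mul_le_mul_left 2 ?_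
  have hinj : Function.Injective (DirichletCharacter.changeLevel (R := ℂ) hdq) :=
    DirichletCharacter.changeLevel_injective hdq
  have h1 : (univ.filter (fun χ : DirichletCharacter ℂ d => χ (-1) = -1)).card =
      ((univ.filter (fun χ : DirichletCharacter ℂ d => χ (-1) = -1)).image
        (DirichletCharacter.changeLevel (R := ℂ) hdq)).card :=
    (card_image_of_injective _ hinj).symm
  rw [h1, ← card_union_of_disjoint]
  · refine card_le_card ?_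
    intro χ hχ
    rw [mem_union, mem_filter, mem_image] at hχ
    rw [mem_filter]
    refine ⟨mem_univ _, ?_⟩
    rcases hχ with hχ | ⟨ψ, hψ, rfl⟩
    · exact hχ.2.1
    · rw [mem_filter] at hψ
      rw [changeLevel_neg_one]
      exact hψ.2
  · rw [Finset.disjoint_left]
    intro χ hχ hχ'
    rw [mem_filter] at hχ
    rw [mem_image] at hχ'
    obtain ⟨ψ, -, rfl⟩ := hχ'
    exact not_good_of_mem hl _ (bad_of_level hdq hld ψ) hlq hχ.2

theorem not_summable_large (C : ℕ) :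
    ¬ Summable ({l : ℕ | l.Prime ∧ C < l}.indicator fun n : ℕ => (1 : ℝ) / n) := by
  classical
  intro h1
  have h2 : ¬ Summable ({l : ℕ | l.Prime}.indicator fun n : ℕ => (1 : ℝ) / n) :=
    not_summable_one_div_on_primes
  apply h2
  rw [← summable_nat_add_iff (C + 1)] at h1 ⊢
  refine h1.congr fun n => ?_
  by_cases h : (n + (C + 1)).Prime
  · rw [Set.indicator_of_mem, Set.indicator_of_mem]
    · exact h
    · exact ⟨h, by omega⟩
  · rw [Set.indicator_of_notMem, Set.indicator_of_notMem]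
    · exact h
    · exact fun h' => h h'.1

/-- Almost all integers have two prime factors `p > C` and `l ≡ 1` modulo `p`. -/
theorem thin_of_pair' (C : ℕ) :
    Thin {q : ℕ | ¬ ∃ p l : ℕ, p.Prime ∧ C < p ∧ l.Prime ∧ l ≡ 1 [MOD p] ∧ p ∣ q ∧ l ∣ q} := by
  classical
  intro ε hε
  obtain ⟨U, hU, N₁, hN₁⟩ := sieve {l : ℕ | l.Prime ∧ C < l} (fun p hp => hp.1)
    (not_summable_large C) (ε / 2) (half_pos hε)
  set δ : ℝ := ε / 2 / (U.card + 1) with hδ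
  have hδ0 : 0 < δ := by positivity
  have h1 : ∀ p ∈ U, ∃ N₀ : ℕ, ∀ N : ℕ, N₀ ≤ N →
      (({n : ℕ | ∀ l, l.Prime → l ≡ 1 [MOD p] → ¬ l ∣ n} ∩ Set.Icc 1 N).ncard : ℝ) ≤ δ * N := by
    intro p hp
    have hp0 : 0 < p := (hU p hp).1.pos
    obtain ⟨V, hV, N₂, hN₂⟩ := sieve {l : ℕ | l.Prime ∧ l ≡ 1 [MOD p]} (fun p hp => hp.1)
      (not_summable_class p hp0) δ hδ0
    refine ⟨N₂, fun N hN => le_trans ?_ (hN₂ N hN)⟩
    have : (({n : ℕ | ∀ l, l.Prime → l ≡ 1 [MOD p] → ¬ l ∣ n} ∩ Set.Icc 1 N).ncard) ≤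
        (({n : ℕ | ∀ p ∈ V, ¬ p ∣ n} ∩ Set.Icc 1 N).ncard) := by
      refine Set.ncard_le_ncard ?_ (fin_inter _ _)
      rintro x ⟨hx, hx1⟩
      exact ⟨fun l hl => hx l (hV l hl).1 (hV l hl).2, hx1⟩
    exact_mod_cast this
  choose! N₂ hN₂ using h1
  refine ⟨max N₁ (U.sup N₂), fun N hN => ?_⟩
  have hNa : N₁ ≤ N := le_trans (le_max_left _ _) hN
  have hNb : ∀ p ∈ U, N₂ p ≤ N := fun p hp =>
    le_trans (le_trans (Finset.le_sup hp) (le_max_right _ _)) hN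
  have hsub : ({q : ℕ | ¬ ∃ p l : ℕ, p.Prime ∧ C < p ∧ l.Prime ∧ l ≡ 1 [MOD p] ∧ p ∣ q ∧ l ∣ q} ∩
      Set.Icc 1 N) ⊆ ({n : ℕ | ∀ p ∈ U, ¬ p ∣ n} ∩ Set.Icc 1 N) ∪
        ⋃ p ∈ U, ({n : ℕ | ∀ l, l.Prime → l ≡ 1 [MOD p] → ¬ l ∣ n} ∩ Set.Icc 1 N) := by
    rintro x ⟨hx, hx1⟩
    by_cases h : ∀ p ∈ U, ¬ p ∣ x
    · exact Or.inl ⟨h, hx1⟩
    · push Not at h
      obtain ⟨p, hp, hpx⟩ := h
      refine Or.inr (Set.mem_biUnion hp ⟨fun l hl hlp hlx => hx ?_, hx1⟩)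
      exact ⟨p, l, (hU p hp).1, (hU p hp).2, hl, hlp, hpx, hlx⟩
  have hfin : (⋃ p ∈ U, ({n : ℕ | ∀ l, l.Prime → l ≡ 1 [MOD p] → ¬ l ∣ n} ∩ Set.Icc 1 N)).Finite :=
    Set.Finite.biUnion U.finite_toSet fun p _ => fin_inter _ _
  have hcard : (({q : ℕ | ¬ ∃ p l : ℕ, p.Prime ∧ C < p ∧ l.Prime ∧ l ≡ 1 [MOD p] ∧ p ∣ q ∧ l ∣ q} ∩
      Set.Icc 1 N).ncard) ≤ ({n : ℕ | ∀ p ∈ U, ¬ p ∣ n} ∩ Set.Icc 1 N).ncard +
        ∑ p ∈ U, ({n : ℕ | ∀ l, l.Prime → l ≡ 1 [MOD p] → ¬ l ∣ n} ∩ Set.Icc 1 N).ncard := by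
    refine (Set.ncard_le_ncard hsub ((fin_inter _ _).union hfin)).trans ?_
    refine (Set.ncard_union_le _ _).trans (Nat.add_le_add_left ?_ _)
    exact Finset.set_ncard_biUnion_le _ _
  have hcard' : ((({q : ℕ | ¬ ∃ p l : ℕ, p.Prime ∧ C < p ∧ l.Prime ∧ l ≡ 1 [MOD p] ∧ p ∣ q ∧ l ∣ q} ∩
      Set.Icc 1 N).ncard : ℕ) : ℝ) ≤ ((({n : ℕ | ∀ p ∈ U, ¬ p ∣ n} ∩ Set.Icc 1 N).ncard : ℕ) : ℝ) +
        ∑ p ∈ U, ((({n : ℕ | ∀ l, l.Prime → l ≡ 1 [MOD p] → ¬ l ∣ n} ∩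
          Set.Icc 1 N).ncard : ℕ) : ℝ) := by exact_mod_cast hcard
  have h3 : ∑ p ∈ U, ((({n : ℕ | ∀ l, l.Prime → l ≡ 1 [MOD p] → ¬ l ∣ n} ∩
          Set.Icc 1 N).ncard : ℕ) : ℝ) ≤ ∑ _p ∈ U, δ * N :=
    sum_le_sum fun p hp => hN₂ p hp N (hNb p hp)
  rw [sum_const, nsmul_eq_mul] at h3
  have h4 : (U.card : ℝ) * (δ * N) ≤ ε / 2 * N := by
    have h5 : (U.card : ℝ) * δ ≤ ε / 2 := by
      rw [hδ, ← mul_div_assoc, div_le_iff₀ (by positivity)]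
      nlinarith
    calc (U.card : ℝ) * (δ * N) = ((U.card : ℝ) * δ) * N := by ring
      _ ≤ ε / 2 * N := mul_le_mul_of_nonneg_right h5 (Nat.cast_nonneg _)
  have h5 := hN₁ N hNa
  linarith

/-- The defect is at least `C`, for almost all `q`. -/
theorem thin_defect (C : ℕ) :
    Thin {q : ℕ | 2 < q ∧ ¬ Algebra.trdeg ℚ (Fq q) + C ≤ ((1 + q.totient / 2 : ℕ) : Cardinal)} := by
  intro ε hε
  obtain ⟨N₀, hN₀⟩ := thin_of_pair' (2 * C + 2) ε hε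
  refine ⟨N₀, fun N hN => le_trans ?_ (hN₀ N hN)⟩
  have hsub : ({q : ℕ | 2 < q ∧ ¬ Algebra.trdeg ℚ (Fq q) + C ≤ ((1 + q.totient / 2 : ℕ) : Cardinal)} ∩
      Set.Icc 1 N) ⊆ ({q : ℕ | ¬ ∃ p l : ℕ, p.Prime ∧ 2 * C + 2 < p ∧ l.Prime ∧ l ≡ 1 [MOD p] ∧
        p ∣ q ∧ l ∣ q} ∩ Set.Icc 1 N) := by
    rintro q ⟨⟨hq2, hq⟩, hqN⟩
    refine ⟨?_, hqN⟩
    rintro ⟨p, l, hp, hCp, hl, hlp, hpq, hlq⟩
    apply hq
    have hq0 : NeZero q := ⟨by omega⟩
    have h1 := trdeg_Fq_le (q := q) hq2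
    have h2 := rho_add_le (q := q) (by omega) hl hlp hpq hlq
    rw [Nat.totient_prime hp] at h2
    calc Algebra.trdeg ℚ (Fq q) + C ≤ ((1 + rho q : ℕ) : Cardinal) + (C : Cardinal) := by gcongr
      _ = ((1 + rho q + C : ℕ) : Cardinal) := by push_cast; rfl
      _ ≤ ((1 + q.totient / 2 : ℕ) : Cardinal) := by
        rw [Nat.cast_le]
        omega
  have := Set.ncard_le_ncard hsub (fin_inter _ _)
  exact_mod_cast this

end

end Run7.h372.LR
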